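import Pool.Agent.H37.CPX.Targets

/-!
# Rectangles where an equation is violated (target `S_NEG` of helper37)
-/

namespace Pool.Agent.H54.CPX

open Finset
open Pool.Agent.H37.CPX

lemma core_le (S V r : ℝ) (a n : ℕ) (hr : 1 ≤ r) (hV : 0 ≤ V)
    (h : S ^ 2 * (r ^ 2) ^ n ≤ V ^ 2) (hn : a ≤ n) : |S| ≤ V / r ^ a := by
  have hra : 0 < r ^ a := pow_pos (by linarith) a
  rw [le_div_iff₀ hra]
  have h1 : (|S| * r ^ a) ^ 2 ≤ V ^ 2 := by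
    have h2 : (|S| * r ^ a) ^ 2 = S ^ 2 * (r ^ 2) ^ a := by
      rw [mul_pow, sq_abs, ← pow_mul, ← pow_mul, Nat.mul_comm a 2]
    rw [h2]
    have h3 : (r ^ 2) ^ a ≤ (r ^ 2) ^ n := pow_le_pow_right₀ (one_le_pow₀ hr) hn
    have h4 : S ^ 2 * (r ^ 2) ^ a ≤ S ^ 2 * (r ^ 2) ^ n :=
      mul_le_mul_of_nonneg_left h3 (sq_nonneg S)
    exact h4.trans h
  exact (abs_le_of_sq_le_sq' h1 hV).2

lemma abs_sgn (hV : S_VPR) (a : ZMod 2) : |sgn a| = 1 := by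
  rcases hV.2.1 a with h | h <;> rw [h] <;> simp

lemma abs_prod_sgn (hV : S_VPR) {m : ℕ} (J : Finset (Fin m)) (b : Fin m → ZMod 2) :
    |∏ j ∈ J, sgn (b j)| = 1 := by
  rw [Finset.abs_prod]
  exact Finset.prod_eq_one (fun j _ => abs_sgn hV (b j))

lemma card_P (hP : S_PJN) {N m k w0 : ℕ} (s : Sy N m k w0) (J : Finset (Fin m))
    (hJ : J.card = w0) : (k + 2) * w0 ≤ (s.P J).card := by
  have h1 := (hP N m k w0 s J ∅).2
  rw [sdiff_empty, sdiff_empty] at h1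
  have h2 := s.exp J (by omega)
  have h2' : (k + 4) * J.card ≤ (s.Nb J).card := h2
  rw [hJ] at h1 h2'
  have e1 : (k + 4) * w0 = k * w0 + 4 * w0 := by ring
  have e2 : (k + 6) * w0 = k * w0 + 6 * w0 := by ring
  have e3 : (k + 2) * w0 = k * w0 + 2 * w0 := by ring
  rw [e1] at h2'
  rw [e2] at h1
  rw [e3]
  omega

theorem pf_NEG (hC : S_CAN) (hV : S_VPR) (hO : S_OPB) (hP : S_PJN) : S_NEG := by
  intro N m k w0 P s F G j0 hP1 hv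
  have hPr : (1 : ℝ) ≤ (P : ℝ) := by exact_mod_cast hP1
  have hr : (1 : ℝ) ≤ (P : ℝ) ^ 8 := one_le_pow₀ hPr
  have hvol : 0 ≤ vol N P := by
    unfold vol
    positivity
  set FJ : Finset (Finset (Fin m)) :=
    univ.filter (fun J : Finset (Fin m) => J.card = w0 ∧ j0 ∉ J) with hFJ
  have e1 : ∑ x ∈ F, ∑ y ∈ G, s.D (pt x y) =
      ∑ J ∈ FJ, ∑ x ∈ F, ∑ y ∈ G, ∏ j ∈ J, s.v j (pt x y) := by
    have a1 : ∑ x ∈ F, ∑ y ∈ G, s.D (pt x y) =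
        ∑ x ∈ F, ∑ y ∈ G, ∑ J ∈ FJ, ∏ j ∈ J, s.v j (pt x y) :=
      Finset.sum_congr rfl (fun x hx => Finset.sum_congr rfl (fun y hy =>
        hC N m k w0 s (pt x y) j0 (hv x hx y hy)))
    have a2 : ∑ x ∈ F, ∑ y ∈ G, ∑ J ∈ FJ, ∏ j ∈ J, s.v j (pt x y) =
        ∑ x ∈ F, ∑ J ∈ FJ, ∑ y ∈ G, ∏ j ∈ J, s.v j (pt x y) :=
      Finset.sum_congr rfl (fun x _ => Finset.sum_comm)
    rw [a1, a2]
    exact Finset.sum_comm
  have hq : ((P ^ 16 : ℕ) : ℝ) = ((P : ℝ) ^ 8) ^ 2 := by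
    rw [Nat.cast_pow, ← pow_mul]
  have e2 : ∀ J ∈ FJ, |∑ x ∈ F, ∑ y ∈ G, ∏ j ∈ J, s.v j (pt x y)| ≤
      vol N P / ((P : ℝ) ^ 8) ^ ((k + 2) * w0) := by
    intro J hJ
    have hJc : J.card = w0 := ((Finset.mem_filter.1 hJ).2).1
    have e3 : ∑ x ∈ F, ∑ y ∈ G, ∏ j ∈ J, s.v j (pt x y) =
        (∏ j ∈ J, sgn (s.b j)) * ∑ x ∈ F, ∑ y ∈ G, chi (s.P J) (pt x y) := by
      rw [Finset.mul_sum]
      refine Finset.sum_congr rfl (fun x _ => ?_)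
      rw [Finset.mul_sum]
      exact Finset.sum_congr rfl (fun y _ => hV.2.2 N m k w0 s J (pt x y))
    rw [e3, abs_mul, abs_prod_sgn hV, one_mul]
    have h4 := hO N (P ^ 16) F G (s.P J)
    have h5 : ((P ^ 16 : ℕ) : ℝ) ^ N * ((2 : ℝ) ^ (P ^ 16)) ^ N = vol N P := by
      unfold vol
      rw [Nat.cast_pow]
    rw [h5, hq] at h4
    exact core_le _ _ _ _ _ hr hvol h4 (card_P hP s J hJc)
  have hcard : (FJ.card : ℝ) ≤ 2 ^ m := by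
    have h6 : FJ.card ≤ 2 ^ m := by
      have h7 := Finset.card_le_univ FJ
      rw [Fintype.card_finset, Fintype.card_fin] at h7
      exact h7
    exact_mod_cast h6
  rw [e1]
  refine (Finset.abs_sum_le_sum_abs _ _).trans ?_
  refine (Finset.sum_le_sum e2).trans ?_
  rw [Finset.sum_const, nsmul_eq_mul]
  have h8 : 0 ≤ vol N P / ((P : ℝ) ^ 8) ^ ((k + 2) * w0) :=
    div_nonneg hvol (pow_nonneg (by linarith) _)
  refine (mul_le_mul_of_nonneg_right hcard h8).trans (le_of_eq ?_)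
  unfold tau
  ring

end Pool.Agent.H54.CPX
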